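import Pool.Agent.Helper83.CB.All

/-!
# MP_d52cf1_gt, Question 1: the complex Banach conjecture for `n = 3 (mod 4)`

Let `n = 3 (mod 4)` and let `V` be a complex normed space of dimension `n + 1` all of whose
hyperplanes are isometric to one another.  Then `V` is a Hilbert space.
-/

universe u

theorem Pool.Agent.Results.MP_d52cf1_gt.ComplexBanach.result :
    ∀ n : ℕ, n % 4 = 3 → ∀ (V : Type u) [NormedAddCommGroup V] [NormedSpace ℂ V],
      Module.finrank ℂ V = n + 1 →
      (∀ H₁ H₂ : Submodule ℂ V, Module.finrank ℂ H₁ = n → Module.finrank ℂ H₂ = n →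
        Nonempty (H₁ ≃ₗᵢ[ℂ] H₂)) →
      Nonempty (V ≃ₗᵢ[ℂ] EuclideanSpace ℂ (Fin (n + 1))) :=
  fun _ hn _ _ _ hV hiso => Pool.Agent.Helper83.CB.all_banach hn hV hiso
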